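import Pool.Agent.Run7.h994.MC.RSg

/-!
# Consecutive primes with one vector of bounded gaps at every relative position between consecutive odd squares

For every `k` and `ε > 0` there are `D` and `c > 0` such that for all large `M`, ALL relative positions `β ∈ [0, 1]` and all `A` with
`M^(1/2 + ε) ≤ A ≤ M` there are `1 ≤ g_0, ..., g_(k-1) ≤ D` such that for at least `c M` of the `m ≤ M` there are at least
`c A / (log M)^D` indices `i` with `(2m - 1 + 2β)² < p_i`, `p_(i+k) ≤ (2m - 1 + 2β)² + A` and `p_(i+j+1) = p_i + g_j` for all `j < k`: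
`k + 1` consecutive primes with these distances. For `k = 1`: many pairs of consecutive primes with one bounded gap, at a given relative position
`β` between `(2m - 1)²` and `(2m + 1)²`.

Method. The Maynard-Tao theorem (in the form with the right order of magnitude, project HR of the starting tree) in an
arbitrary set `T` of relative density `κ → 0` in which the integers and the primes are equidistributed in residue classes up to a
small power level; here `T` is the set of the integers `v` for which the fractional part of `√v / 2 - α` is less than `κ`. The clusters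
found consist of integers free of small prime factors; the upper bound sieve shows that no `m` has too many of them.
-/

set_option autoImplicit false

namespace Pool.Agent.Results.MP_5f6ee5_nt.GapVectorsAtEveryPosition

open Finset

/-- the `i`-th prime (`i = 0, 1, ...`) -/
noncomputable def p (i : ℕ) : ℕ := Nat.nth Nat.Prime i

open Classical in
/-- the indices `i` with `x < p_i`, `p_(i+k) ≤ x + A` and `p_(i+j+1) = p_i + g_j` for all `j < k`. (The bound for `i` is no restriction:
`i < p_i ≤ x + A`.) -/
noncomputable def places {k : ℕ} (g : Fin k → ℕ) (A x : ℝ) : Finset ℕ :=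
  (range (⌊x + A⌋₊ + 1)).filter (fun i : ℕ => x < p i ∧ (p (i + k) : ℝ) ≤ x + A ∧ ∀ j : Fin k, p (i + (j + 1)) = p i + g j)

theorem result (k : ℕ) (ε : ℝ) (hε : 0 < ε) : ∃ (D : ℕ) (c : ℝ), 0 < c ∧ ∃ M₀ : ℕ, ∀ M : ℕ, M₀ ≤ M →
    ∀ β : ℝ, 0 ≤ β → β ≤ 1 → ∀ A : ℕ, (M : ℝ) ^ (1 / 2 + ε) ≤ A → A ≤ M →
      ∃ g : Fin k → ℕ, (∀ j, 1 ≤ g j ∧ g j ≤ D) ∧
      c * M ≤ (#((Icc 1 M).filter (fun m : ℕ => c * (A / Real.log M ^ D) ≤
        (#(places g A ((2 * (m : ℝ) - 1 + 2 * β) ^ 2)) : ℝ))) : ℝ) :=
  Run7.h994.MC.odd_vectors k ε hε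

end Pool.Agent.Results.MP_5f6ee5_nt.GapVectorsAtEveryPosition
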