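import Pool.Agent.Run7.h946.SQ.Use

/-!
# Many primes between consecutive odd squares in prescribed Bohr sets

`1, α_1, …, α_r` are linearly independent over `ℚ`. There is one thin set `E` (at most `X / (log X)^A` elements up to `X`, for
every `A`) such that for all `m`, `W`, `δ > 0` and all large `k ∉ E` every subinterval of length at least `k / (log k)^W` of
`[(2k-1)², (2k+1)²]` contains `m` primes `p_1 < … < p_m` such that `α p_i` is in the `i`-th of `m` arbitrary boxes modulo one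
of volume at least `δ`. In particular `P_k ≥ 2` for these `k`, with two primes in any two prescribed Bohr sets, in any order.
-/

set_option autoImplicit false
set_option maxHeartbeats 4000000

namespace Pool.Agent.Results.MP_5f6ee5_nt.PrescribedBoxes

open Finset Filter Topology
open Run7.h946.SQ (Bohr Independent IsThin cnt Good)

/-- **Theorem.** -/
theorem result {r : ℕ} (α : Fin r → ℝ) (hα : Independent α) : ∃ E : Set ℕ, IsThin E ∧
    ∀ (m W : ℕ) (δ : ℝ), 0 < δ → ∃ k₀ : ℕ, ∀ k : ℕ, k₀ ≤ k → k ∉ E → ∀ s t : ℕ,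
      (2 * k - 1) ^ 2 ≤ s → s ≤ t → t ≤ (2 * k + 1) ^ 2 → (k : ℝ) / Real.log k ^ W ≤ (t : ℝ) - s →
      ∀ u v : Fin m → Fin r → ℝ, (∀ i j, u i j ≤ v i j) → (∀ i j, v i j ≤ u i j + 1) → (∀ i, δ ≤ ∏ j, (v i j - u i j)) →
      ∃ p : Fin m → ℕ, StrictMono p ∧ ∀ i, s < p i ∧ p i ≤ t ∧ p i ≠ 2 ∧ Bohr α (u i) (v i) (p i) := by
  obtain ⟨E, hE, h⟩ := Run7.h946.SQ.exceptional hα
  refine ⟨{k | 2 * k ∈ E}, hE.double, fun m W δ hδ => ?_⟩
  obtain ⟨n₀, h1⟩ := h (W + 1) (δ / 2) (by positivity)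
  obtain ⟨n₁, h2⟩ := Run7.h946.SQ.large_log W 1 (4 * m + 4) one_pos
  obtain ⟨n₂, h3⟩ := exists_nat_ge (Real.exp (8 * (m + 1)))
  refine ⟨n₀ + n₁ + n₂ + 20, fun k hk hkE s t hs hst ht hlen u v hu hv hvol => ?_⟩
  have hg := h1 (2 * k) (by omega) hkE
  have hk20 : (20 : ℝ) ≤ k := by exact_mod_cast (by omega : 20 ≤ k)
  have hm0 : (0 : ℝ) ≤ m := Nat.cast_nonneg _
  have hlk : 8 * ((m : ℝ) + 1) ≤ Real.log k := by
    rw [Real.le_log_iff_exp_le (by linarith)]
    exact h3.trans (by exact_mod_cast (by omega : n₂ ≤ k))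
  have hlk0 : 0 < Real.log k := by linarith
  have hlk2 : Real.log k ≤ Real.log ((2 * k : ℕ) : ℝ) := Real.log_le_log (by linarith) (by push_cast; linarith)
  have hbig := h2 k (by omega)
  rw [one_mul] at hbig
  rcases Nat.eq_zero_or_pos m with hm | hm
  · subst hm
    exact ⟨fun i => i.elim0, fun i => i.elim0, fun i => i.elim0⟩
  have hm1 : (1 : ℝ) ≤ m := by exact_mod_cast hm
  -- the length of the pieces
  obtain ⟨L, hL⟩ : ∃ L, L = (t - s) / m := ⟨_, rfl⟩
  have hts : ((t - s : ℕ) : ℝ) = (t : ℝ) - s := by rw [Nat.cast_sub hst]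
  have hL1 : m * L ≤ t - s := by rw [hL]; exact Nat.mul_div_le _ _
  have hL2 : (t : ℝ) - s < m * (L + 1) := by
    have h5 : t - s < m * (L + 1) := by
      rw [hL]
      exact Nat.lt_mul_div_succ _ hm
    rw [← hts]
    exact_mod_cast h5
  have hL3 : ((2 * k : ℕ) : ℝ) / Real.log ((2 * k : ℕ) : ℝ) ^ (W + 1) ≤ L := by
    have h5 : ((2 * k : ℕ) : ℝ) / Real.log ((2 * k : ℕ) : ℝ) ^ (W + 1) ≤ ((2 * k : ℕ) : ℝ) / Real.log k ^ (W + 1) := by
      apply div_le_div_of_nonneg_left (Nat.cast_nonneg _) (by positivity)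
      exact pow_le_pow_left₀ hlk0.le hlk2 _
    have h6 : ((2 * k : ℕ) : ℝ) / Real.log k ^ (W + 1) = 2 * (k / Real.log k ^ W) / Real.log k := by
      rw [pow_succ]
      push_cast
      field_simp
    have h7 : 2 * ((k : ℝ) / Real.log k ^ W) / Real.log k ≤ ((k : ℝ) / Real.log k ^ W) / (2 * m) := by
      rw [div_le_div_iff₀ hlk0 (by linarith)]
      have h8 : 0 ≤ (k : ℝ) / Real.log k ^ W := by positivity
      have h9 : 2 * (2 * (m : ℝ)) ≤ Real.log k := by linarith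
      nlinarith
    have h8 : ((k : ℝ) / Real.log k ^ W) / (2 * m) ≤ L := by
      rw [div_le_iff₀ (by linarith)]
      nlinarith
    rw [h6] at h5
    linarith
  have hsq : (2 * k + 1) ^ 2 ≤ (2 * k + 2) ^ 2 := Nat.pow_le_pow_left (by omega) 2
  have key : ∀ i : Fin m, ∃ p, s + i * L < p ∧ p ≤ s + i * L + L ∧ Bohr α (u i) (v i) p := by
    intro i
    have hi : (i : ℕ) + 1 ≤ m := i.2
    have h5 : ((i : ℕ) + 1) * L ≤ m * L := Nat.mul_le_mul_right _ hi
    have h6 : s + i * L + L ≤ t := by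
      have : (i : ℕ) * L + L = ((i : ℕ) + 1) * L := by ring
      omega
    exact hg.exists (by omega) (s := s + i * L) (t := s + i * L + L) (hs.trans (Nat.le_add_right _ _))
      (Nat.le_add_right _ _) ((h6.trans ht).trans hsq) (by push_cast; push_cast at hL3; linarith) (hu i) (hv i)
      (by linarith : δ / 2 < δ) (hvol i)
  choose p hp1 hp2 hp3 using key
  refine ⟨p, fun i j hij => ?_, fun i => ⟨lt_of_le_of_lt (Nat.le_add_right _ _) (hp1 i), ?_, ?_, hp3 i⟩⟩
  · have h5 : (i : ℕ) + 1 ≤ j := hij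
    have h6 : ((i : ℕ) + 1) * L ≤ j * L := Nat.mul_le_mul_right _ h5
    have h7 : (i : ℕ) * L + L = ((i : ℕ) + 1) * L := by ring
    have := hp2 i
    have := hp1 j
    omega
  · have hi : (i : ℕ) + 1 ≤ m := i.2
    have h5 : ((i : ℕ) + 1) * L ≤ m * L := Nat.mul_le_mul_right _ hi
    have h7 : (i : ℕ) * L + L = ((i : ℕ) + 1) * L := by ring
    have := hp2 i
    omega
  · have h5 := hp1 i
    have h6 : 39 ^ 2 ≤ (2 * k - 1) ^ 2 := Nat.pow_le_pow_left (by omega) 2
    omega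

end Pool.Agent.Results.MP_5f6ee5_nt.PrescribedBoxes
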