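import Mathlib
import Pool.Agent.Run7.h337.MK.TreeTU

/-!
# Primes at prescribed distances, up to sparse flat sets, between almost all pairs of consecutive odd squares
-/

set_option autoImplicit false

namespace Pool.Agent.Results.MP_5f6ee5_nt.PrimesAtPrescribedDistances

open Finset
open Run7.h337.MK (PrimeLaw AllTreesT)

theorem result (r T U : ℕ) (ε : ℝ) (hε : 0 < ε) (hε1 : ε ≤ 1) :
    ∃ V C D X₀ : ℕ, ∀ X : ℕ, X₀ ≤ X →
    ∃ E : Finset ℕ, (E.card : ℝ) ≤ X / Real.log X ^ U ∧ ∀ k : ℕ, 1 ≤ k → 2 * k + 1 ≤ X → k ∉ E →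
    PrimeLaw 1 X ε ((2 * k - 1) ^ 2) ((2 * k + 1) ^ 2) ∧
    AllTreesT 1 r T V C D X ε ((2 * k - 1) ^ 2) ((2 * k + 1) ^ 2) := by
  classical
  obtain ⟨V, C, D, X₀, h⟩ := Run7.h337.MK.treeT_unc 1 (le_refl 1) r (T + U + 2) U ε hε hε1
  refine ⟨V, C, D, X₀, fun X hX => ?_⟩
  obtain ⟨hL, E, hE, h2⟩ := h X hX
  refine ⟨E.image fun n => (n + 1) / 2, ?_, fun k hk hkX hkE => ?_⟩
  · refine le_trans ?_ hE
    exact_mod_cast card_image_le
  · have hL1 : (1 : ℝ) ≤ Real.log X := by linarith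
    have hmono : ∀ e f : ℕ, e ≤ f → Real.log X ^ e ≤ Real.log X ^ f := fun e f hef => pow_le_pow_right₀ hL1 hef
    have hpow : Real.log X ^ 1 ≤ Real.log X ^ (T + U + 2) := hmono _ _ (by omega)
    rw [pow_one] at hpow
    have hb : ((2 * k + 1 : ℕ) : ℝ) = ((2 * k - 1 : ℕ) : ℝ) + 2 := by
      have : 2 * k + 1 = (2 * k - 1) + 2 := by omega
      rw [this]
      push_cast
      norm_num
    obtain ⟨h3, h4, h5⟩ := h2 (2 * k - 1) (2 * k + 1) (by omega) (by omega) (by omega)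
      (by
        rw [hb]
        linarith)
      (by
        intro n hn1 hn2 hn3
        apply hkE
        rw [mem_image]
        exact ⟨n, hn3, by omega⟩)
    refine ⟨h4 _ _ (le_refl _) (le_refl _) ?_, Run7.h337.MK.allTreesT_mono (by omega) hL1 (le_refl _) (le_refl _) h5⟩
    have ha0 : (0 : ℝ) ≤ ((2 * k - 1 : ℕ) : ℝ) := Nat.cast_nonneg _
    have h6 : (X : ℝ) ^ 1 / Real.log X ^ (T + U + 2) ≤ ((2 * k - 1 : ℕ) : ℝ) := by
      rw [pow_one, div_le_iff₀ (by positivity)]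
      exact h3.trans (mul_le_mul_of_nonneg_left (hmono _ _ (by omega)) ha0)
    have h7 : (((2 * k + 1) ^ 2 : ℕ) : ℝ) = (((2 * k - 1 : ℕ) : ℝ) + 2) ^ 2 := by
      rw [← hb]
      push_cast
      ring
    have h8 : (((2 * k - 1) ^ 2 : ℕ) : ℝ) = ((2 * k - 1 : ℕ) : ℝ) ^ 2 := by push_cast; ring
    rw [h7, h8]
    nlinarith

end Pool.Agent.Results.MP_5f6ee5_nt.PrimesAtPrescribedDistances
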