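import Mathlib
import Pool.Agent.Run7.h794.MK.All
import Pool.Agent.Run7.h591.EG.Fin2

set_option autoImplicit false
set_option maxHeartbeats 4000000

namespace Pool.Agent.Results.MP_5f6ee5_nt.ReturnPrimes

open Finset MeasureTheory
open Pool.Agent.Run7.h591.EG

/-- the primes `p` between the odd squares `(2k - 1)^2` and `(2k + 1)^2` for which `p - 1` is a return time:
the set of the points of `A` which are again in `A` at the time `p - 1` has measure `> μ(A)^2 - ε` -/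
noncomputable def retMinus {X : Type*} [MeasurableSpace X] (μ : Measure X) (T : X → X) (A : Set X) (ε : ℝ) (k : ℕ) :
    Finset ℕ :=
  (Ioo ((2 * k - 1) ^ 2) ((2 * k + 1) ^ 2)).filter (fun p => p.Prime ∧ μ.real A ^ 2 - ε < μ.real (A ∩ T^[p - 1] ⁻¹' A))

/-- the same with the time `p + 1` -/
noncomputable def retPlus {X : Type*} [MeasurableSpace X] (μ : Measure X) (T : X → X) (A : Set X) (ε : ℝ) (k : ℕ) :
    Finset ℕ :=
  (Ioo ((2 * k - 1) ^ 2) ((2 * k + 1) ^ 2)).filter (fun p => p.Prime ∧ μ.real A ^ 2 - ε < μ.real (A ∩ T^[p + 1] ⁻¹' A))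

theorem result {X : Type*} [MeasurableSpace X] (μ : Measure X) [IsProbabilityMeasure μ] (T : X → X)
    (hT : MeasurePreserving T μ μ) (A : Set X) (hA : MeasurableSet A) (ε : ℝ) (hε : 0 < ε) :
    ∃ κ : ℝ, 0 < κ ∧ ∀ C : ℕ, ∃ K₀ : ℕ, ∀ K : ℕ, K₀ ≤ K → ∃ Bad : Finset ℕ, Bad ⊆ Ioc K (2 * K) ∧
      (Bad.card : ℝ) ≤ K / Real.log K ^ C ∧ ∀ k ∈ Ioc K (2 * K), k ∉ Bad →
        κ * k / Real.log k ≤ ((retMinus μ T A ε k).card : ℝ) ∧
        κ * k / Real.log k ≤ ((retPlus μ T A ε k).card : ℝ) ∧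
        ∃ p p' : ℕ, p ≠ p' ∧ p.Prime ∧ p'.Prime ∧ (2 * k - 1) ^ 2 < p ∧ p < (2 * k + 1) ^ 2 ∧
          (2 * k - 1) ^ 2 < p' ∧ p' < (2 * k + 1) ^ 2 ∧
          μ.real A ^ 2 - ε < μ.real (A ∩ T^[p - 1] ⁻¹' A) ∧ μ.real A ^ 2 - ε < μ.real (A ∩ T^[p' + 1] ⁻¹' A) := by
  obtain ⟨κ, hκ, h1, h2⟩ := khin Pool.Agent.Run7.h794.MK.all_all hT hA ε hε
  obtain ⟨n₀, hn₀⟩ := full
  obtain ⟨n₂, hn₂⟩ := Pool.Agent.H373R2.T7.ev_L' 1
  obtain ⟨n₃, hn₃⟩ := ev_big κ 2 hκ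
  refine ⟨κ, hκ, ?_⟩
  have h3 := AW_at' (AW_and h1 h2) (fun n => (n - 1) ^ 2) (fun n => (n + 1) ^ 2) 1 n₀ hn₀
    (fun n => κ * (4 * n) ≤ Real.log n * (((pr ((n - 1) ^ 2) ((n + 1) ^ 2)).filter
        (fun p => μ.real A ^ 2 - ε < μ.real (A ∩ T^[p - 1] ⁻¹' A))).card : ℝ) ∨ n = 0) (by
      intro N n hn h
      rcases Nat.eq_zero_or_pos n with h0 | h0
      · exact Or.inr h0
      · left
        have := h.1
        rwa [len_full n h0] at this)
  have h4 := AW_at' (AW_and h1 h2) (fun n => (n - 1) ^ 2) (fun n => (n + 1) ^ 2) 1 n₀ hn₀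
    (fun n => κ * (4 * n) ≤ Real.log n * (((pr ((n - 1) ^ 2) ((n + 1) ^ 2)).filter
        (fun p => μ.real A ^ 2 - ε < μ.real (A ∩ T^[p + 1] ⁻¹' A))).card : ℝ) ∨ n = 0) (by
      intro N n hn h
      rcases Nat.eq_zero_or_pos n with h0 | h0
      · exact Or.inr h0
      · left
        have := h.2
        rwa [len_full n h0] at this)
  have h5 := ev_half _ (alm_and _ _ h3 h4)
  refine alm_mono _ _ (max (max n₂ n₃) 2) ?_ h5
  rintro k hk ⟨e1, e2⟩
  have hk2 : 2 ≤ k := le_trans (le_max_right _ _) hk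
  have hLk := hn₂ k (le_trans (le_trans (le_max_left _ _) (le_max_left _ _)) hk)
  have hbig := hn₃ k (le_trans (le_trans (le_max_right _ _) (le_max_left _ _)) hk)
  have hkR : (2 : ℝ) ≤ k := by exact_mod_cast hk2
  have e1' := e1.resolve_right (by omega)
  have e2' := e2.resolve_right (by omega)
  have hL0 : 0 < Real.log k := by linarith
  have hlog2 : Real.log ((2 * k : ℕ) : ℝ) ≤ 2 * Real.log k := by
    push_cast
    rw [Real.log_mul (by norm_num) (by linarith)]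
    have : Real.log 2 ≤ Real.log k := Real.log_le_log (by norm_num) hkR
    linarith
  have hfin : ∀ c : ℕ, κ * (4 * ((2 * k : ℕ) : ℝ)) ≤ Real.log ((2 * k : ℕ) : ℝ) * (c : ℝ) → κ * k / Real.log k ≤ c := by
    intro c hc
    rw [div_le_iff₀ hL0]
    have h6 : Real.log ((2 * k : ℕ) : ℝ) * (c : ℝ) ≤ 2 * Real.log k * c := by gcongr
    push_cast at hc h6
    have h7 : 0 ≤ κ * k := by positivity
    nlinarith
  have hnp : ¬ ((2 * k + 1) ^ 2).Prime := sq_not_prime _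
  have hm : (retMinus μ T A ε k) = (pr ((2 * k - 1) ^ 2) ((2 * k + 1) ^ 2)).filter
      (fun p => μ.real A ^ 2 - ε < μ.real (A ∩ T^[p - 1] ⁻¹' A)) := by
    rw [pr_Ioo _ _ hnp]
    unfold retMinus
    congr 1
  have hp : (retPlus μ T A ε k) = (pr ((2 * k - 1) ^ 2) ((2 * k + 1) ^ 2)).filter
      (fun p => μ.real A ^ 2 - ε < μ.real (A ∩ T^[p + 1] ⁻¹' A)) := by
    rw [pr_Ioo _ _ hnp]
    unfold retPlus
    congr 1
  have f1 : κ * k / Real.log k ≤ ((retMinus μ T A ε k).card : ℝ) := by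
    rw [hm]; exact hfin _ e1'
  have f2 : κ * k / Real.log k ≤ ((retPlus μ T A ε k).card : ℝ) := by
    rw [hp]; exact hfin _ e2'
  refine ⟨f1, f2, ?_⟩
  have g1 : 2 ≤ (retMinus μ T A ε k).card := by exact_mod_cast hbig.trans f1
  have g2 : 2 ≤ (retPlus μ T A ε k).card := by exact_mod_cast hbig.trans f2
  obtain ⟨p, hpm⟩ : (retMinus μ T A ε k).Nonempty := card_pos.1 (by omega)
  obtain ⟨p', hpp, hne⟩ := exists_mem_ne (by omega : 1 < (retPlus μ T A ε k).card) p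
  have q1 := hpm
  have q2 := hpp
  unfold retMinus at q1
  unfold retPlus at q2
  rw [mem_filter, mem_Ioo] at q1 q2
  exact ⟨p, p', hne.symm, q1.2.1, q2.2.1, q1.1.1, q1.1.2, q2.1.1, q2.1.2, q1.2.2, q2.2.2⟩

end Pool.Agent.Results.MP_5f6ee5_nt.ReturnPrimes
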